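import Pool.Agent.Q331.RT.Defs

/-!
# R-trees: the number of leaves
-/

open Finset

namespace Pool.Agent.Q331.RT

variable {ι : Type} [DecidableEq ι]

/-- The number of leaves. -/
def nleaf : {h : ℕ} → Tree ι h → ℕ
  | _, .leaf _ => 1
  | _, .node _ f => ∑ j, nleaf (f j)

theorem mem_objs (i : ι) {h : ℕ} (T : Tree ι h) : i ∈ objs T ↔ 0 < mult i T := by
  induction T with
  | leaf s =>
    simp only [objs, mult]
    split_ifs with h <;> simp [h]
  | node m f ih =>
    simp only [objs, mult, mem_biUnion, mem_univ, true_and, ih]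
    constructor
    · rintro ⟨j, hj⟩
      exact hj.trans_le (Finset.single_le_sum (f := fun j => mult i (f j)) (fun _ _ => Nat.zero_le _)
        (mem_univ j))
    · intro h
      by_contra hcon
      push Not at hcon
      have : ∑ j, mult i (f j) = 0 := Finset.sum_eq_zero fun j _ => by
        have := hcon j
        omega
      omega

/-- Every leaf has at most `b` objects. -/
def LeafLE (b : ℝ) : {h : ℕ} → Tree ι h → Prop
  | _, .leaf s => s.card ≤ b
  | _, .node _ f => ∀ j, LeafLE b (f j)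

/-- Every leaf has at least `a` objects. -/
def LeafGE (a : ℝ) : {h : ℕ} → Tree ι h → Prop
  | _, .leaf s => a ≤ s.card
  | _, .node _ f => ∀ j, LeafGE a (f j)

omit [DecidableEq ι] in
theorem Occ.leafLE {a b : ℝ} {h : ℕ} {T : Tree ι h} (hT : Occ a b T) : LeafLE b T := by
  induction T with
  | leaf s => exact hT.2
  | node m f ih => exact fun j => ih j (hT.2.2 j)

omit [DecidableEq ι] in
theorem Occ.leafGE {a b : ℝ} {h : ℕ} {T : Tree ι h} (hT : Occ a b T) : LeafGE a T := by
  induction T with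
  | leaf s => exact hT.1
  | node m f ih => exact fun j => ih j (hT.2.2 j)

theorem card_objs_le {b : ℝ} {h : ℕ} {T : Tree ι h} (hT : LeafLE b T) :
    ((objs T).card : ℝ) ≤ b * nleaf T := by
  induction T with
  | leaf s =>
    have : (s.card : ℝ) ≤ b := hT
    simpa [objs, nleaf] using this
  | node m f ih =>
    simp only [objs, nleaf]
    calc (((univ : Finset (Fin m)).biUnion fun j => objs (f j)).card : ℝ)
        ≤ ∑ j, ((objs (f j)).card : ℝ) := by exact_mod_cast card_biUnion_le
      _ ≤ ∑ j, b * (nleaf (f j) : ℝ) := sum_le_sum fun j _ => ih j (hT j)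
      _ = b * ((∑ j, nleaf (f j) : ℕ) : ℝ) := by rw [← mul_sum]; push_cast; rfl

theorem IsRTree.leafLE {a b : ℝ} {h : ℕ} {T : Tree ι h} (hT : IsRTree a b T) : LeafLE b T := by
  cases T with
  | leaf s => exact hT.2
  | node m f => exact fun j => (hT.2.2 j).leafLE

theorem IsRTree.mult_eq {a b : ℝ} {h : ℕ} {T : Tree ι h} (hT : IsRTree a b T) (i : ι) :
    mult i T = 1 := by
  cases T with
  | leaf s => exact hT.1 i
  | node m f => exact hT.1 i

theorem IsRTree.objs_eq [Fintype ι] {a b : ℝ} {h : ℕ} {T : Tree ι h} (hT : IsRTree a b T) :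
    objs T = univ := by
  ext i
  simp [mem_objs, hT.mult_eq i]

theorem IsRTree.card_le [Fintype ι] {a b : ℝ} {h : ℕ} {T : Tree ι h} (hT : IsRTree a b T) :
    (Fintype.card ι : ℝ) ≤ b * nleaf T := by
  have := card_objs_le hT.leafLE
  rwa [hT.objs_eq, card_univ] at this

variable {d : ℕ}

omit [DecidableEq ι] in
theorem bbox_mono (S : ι → Box d) {X Y : Finset ι} (h : X ⊆ Y) : bbox S X ⊆ bbox S Y := by
  intro x hx k
  obtain ⟨⟨i, hi, h1⟩, ⟨j, hj, h2⟩⟩ := hx k
  exact ⟨⟨i, h hi, h1⟩, ⟨j, h hj, h2⟩⟩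

end Pool.Agent.Q331.RT
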