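import Mathlib

/-!
# R-trees: definitions
-/

open Finset

namespace Pool.Agent.Q331.RT

/-- An axis-parallel box in `ℝ ^ d`: the product of the intervals `[lo i, hi i]`. -/
structure Box (d : ℕ) where
  lo : Fin d → ℝ
  hi : Fin d → ℝ
  le : ∀ i, lo i ≤ hi i

/-- The points of a box. -/
def Box.pts {d : ℕ} (b : Box d) : Set (Fin d → ℝ) := {x | ∀ i, b.lo i ≤ x i ∧ x i ≤ b.hi i}

/-- A rooted tree of height `h`, all of whose leaves have depth `h`.  A leaf stores a set of
(indices of) objects, an internal node has `m` children. -/
inductive Tree (ι : Type) : ℕ → Type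
  | leaf : Finset ι → Tree ι 0
  | node {h : ℕ} (m : ℕ) : (Fin m → Tree ι h) → Tree ι (h + 1)

variable {ι : Type} [DecidableEq ι]

/-- The set of objects in the subtree. -/
def objs : {h : ℕ} → Tree ι h → Finset ι
  | _, .leaf s => s
  | _, .node _ f => univ.biUnion fun j => objs (f j)

/-- The number of leaves in which the object `i` is stored. -/
def mult (i : ι) : {h : ℕ} → Tree ι h → ℕ
  | _, .leaf s => if i ∈ s then 1 else 0
  | _, .node _ f => ∑ j, mult i (f j)

/-- Every leaf of the subtree has between `a` and `b` objects and every internal node of the subtree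
has between `a` and `b` children. -/
def Occ (a b : ℝ) : {h : ℕ} → Tree ι h → Prop
  | _, .leaf s => a ≤ s.card ∧ s.card ≤ b
  | _, .node m f => a ≤ m ∧ m ≤ b ∧ ∀ j, Occ a b (f j)

/-- `T` is an R-tree for the objects `ι`: each object is stored in exactly one leaf, and all
leaves (internal nodes) other than the root have between `a` and `b` objects (children); the root
has at most `b`. -/
def IsRTree (a b : ℝ) : {h : ℕ} → Tree ι h → Prop
  | _, .leaf s => (∀ i, mult i (.leaf s) = 1) ∧ (s.card : ℝ) ≤ b
  | _, .node m f => (∀ i, mult i (.node m f) = 1) ∧ (m : ℝ) ≤ b ∧ ∀ j, Occ a b (f j)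

variable {d : ℕ}

/-- The minimal axis-parallel box that contains all boxes `S i` with `i ∈ X`: the points `x` with
`min lo ≤ x k ≤ max hi` for all axes `k`. -/
def bbox (S : ι → Box d) (X : Finset ι) : Set (Fin d → ℝ) :=
  {x | ∀ k, (∃ i ∈ X, (S i).lo k ≤ x k) ∧ ∃ i ∈ X, x k ≤ (S i).hi k}

open Classical in
/-- The number of nodes visited by the stabbing query `q` from a visited node on: a child `v` is
visited exactly when `q` lies in its bounding box. -/
noncomputable def stabCost (S : ι → Box d) (q : Fin d → ℝ) : {h : ℕ} → Tree ι h → ℕ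
  | _, .leaf _ => 1
  | _, .node _ f => 1 + ∑ j, if q ∈ bbox S (objs (f j)) then stabCost S q (f j) else 0

open Classical in
/-- The number of nodes visited by the aggregation query with the box `Q` from a visited node on: a
child `v` is ignored if its bounding box is disjoint from `Q`, it is not entered if its bounding box
is contained in `Q`, and otherwise it is visited. -/
noncomputable def aggCost (S : ι → Box d) (Q : Box d) : {h : ℕ} → Tree ι h → ℕ
  | _, .leaf _ => 1
  | _, .node _ f => 1 + ∑ j, if bbox S (objs (f j)) ∩ Q.pts = ∅ ∨ bbox S (objs (f j)) ⊆ Q.pts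
      then 0 else aggCost S Q (f j)

end Pool.Agent.Q331.RT
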