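import Pool.Agent.Q331.RT.Basic

/-!
# Stabbing queries: the hard set of boxes
-/

open Finset

namespace Pool.Agent.Q331.RT

section Count

variable {ι : Type} [DecidableEq ι] {d : ℕ}

/-- Every leaf of the subtree is hit by one of the queries. -/
def LeafHit (S : ι → Box d) {κ : Type} (q : κ → Fin d → ℝ) : {h : ℕ} → Tree ι h → Prop
  | _, .leaf s => ∃ x, q x ∈ bbox S s
  | _, .node _ f => ∀ j, LeafHit S q (f j)

open Classical in
theorem nleaf_le_sum_sub {S : ι → Box d} {κ : Type} [Fintype κ] {q : κ → Fin d → ℝ} {h : ℕ}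
    {T : Tree ι h} (hT : LeafHit S q T) :
    nleaf T ≤ ∑ x, if q x ∈ bbox S (objs T) then stabCost S (q x) T else 0 := by
  induction T with
  | leaf s =>
    obtain ⟨x, hx'⟩ := hT
    have hx : q x ∈ bbox S (objs (Tree.leaf s)) := hx'
    calc nleaf (Tree.leaf s) = (if q x ∈ bbox S (objs (Tree.leaf s)) then
          stabCost S (q x) (Tree.leaf s) else 0) := by
          rw [if_pos hx]; rfl
      _ ≤ _ := Finset.single_le_sum (f := fun x => if q x ∈ bbox S (objs (Tree.leaf s)) then
          stabCost S (q x) (Tree.leaf s) else 0) (fun _ _ => Nat.zero_le _) (mem_univ x)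
  | node m f ih =>
    calc nleaf (Tree.node m f) = ∑ j, nleaf (f j) := rfl
      _ ≤ ∑ j, ∑ x, (if q x ∈ bbox S (objs (f j)) then stabCost S (q x) (f j) else 0) :=
          Finset.sum_le_sum fun j _ => ih j (hT j)
      _ = ∑ x, ∑ j, (if q x ∈ bbox S (objs (f j)) then stabCost S (q x) (f j) else 0) :=
          Finset.sum_comm
      _ ≤ _ := by
          refine Finset.sum_le_sum fun x _ => ?_
          by_cases hx : q x ∈ bbox S (objs (Tree.node m f))
          · rw [if_pos hx]
            simp only [stabCost]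
            omega
          · rw [if_neg hx]
            refine le_of_eq (Finset.sum_eq_zero fun j _ => if_neg fun h => hx ?_)
            refine bbox_mono S ?_ h
            intro i hi
            exact mem_biUnion.2 ⟨j, mem_univ _, hi⟩

/-- Every leaf other than the root is hit by one of the queries. -/
def RootHit (S : ι → Box d) {κ : Type} (q : κ → Fin d → ℝ) : {h : ℕ} → Tree ι h → Prop
  | _, .leaf _ => True
  | _, .node _ f => ∀ j, LeafHit S q (f j)

theorem nleaf_le_sum {S : ι → Box d} {κ : Type} [Fintype κ] [Nonempty κ] {q : κ → Fin d → ℝ}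
    {h : ℕ} {T : Tree ι h} (hT : RootHit S q T) :
    nleaf T ≤ ∑ x, stabCost S (q x) T := by
  classical
  cases T with
  | leaf s =>
    obtain ⟨x⟩ := ‹Nonempty κ›
    calc nleaf (Tree.leaf s) = stabCost S (q x) (Tree.leaf s) := rfl
      _ ≤ _ := Finset.single_le_sum (f := fun x => stabCost S (q x) (Tree.leaf s))
          (fun _ _ => Nat.zero_le _) (mem_univ x)
  | node m f =>
    have hf : ∀ j, LeafHit S q (f j) := hT
    calc nleaf (Tree.node m f) = ∑ j, nleaf (f j) := rfl
      _ ≤ ∑ j, ∑ x, (if q x ∈ bbox S (objs (f j)) then stabCost S (q x) (f j) else 0) :=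
          Finset.sum_le_sum fun j _ => nleaf_le_sum_sub (hf j)
      _ = ∑ x, ∑ j, (if q x ∈ bbox S (objs (f j)) then stabCost S (q x) (f j) else 0) :=
          Finset.sum_comm
      _ ≤ _ := by
          refine Finset.sum_le_sum fun x _ => ?_
          simp only [stabCost]
          omega

end Count

section Hard

variable {e K N P : ℕ}

/-- The box of object `j`, whose cell is `c`. -/
noncomputable def hardBox (K N : ℕ) (c : Fin (e + 2) → Fin K) (j : ℕ) : Box (e + 2) where
  lo s := -(c s : ℝ) - j / (2 * N + 1)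
  hi s := K - (c (s - 1) : ℝ)
  le s := by
    have h1 : ((c (s - 1) : ℕ) : ℝ) < K := by exact_mod_cast (c (s - 1)).2
    have h2 : (0 : ℝ) ≤ (c s : ℕ) := Nat.cast_nonneg _
    have h3 : (0 : ℝ) ≤ j / (2 * N + 1) := by positivity
    linarith

/-- The query `(s, i)`. -/
noncomputable def hardQ (K : ℕ) (x : Fin (e + 2) × Fin (K - 1)) : Fin (e + 2) → ℝ := fun t =>
  if t = x.1 then -((x.2 : ℝ) + 1 / 2) else if t = x.1 + 1 then K - x.2 - 1 / 2 else 0

theorem succ_ne (s : Fin (e + 2)) : s + 1 ≠ s := by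
  intro h
  have h1 : (1 : Fin (e + 2)) = 0 := by
    have := congrArg (fun t => t - s) h
    simpa using this
  exact absurd h1 (by simp)

/-- No box contains a query point. -/
theorem not_mem_hard (c : Fin (e + 2) → Fin K) {j : ℕ} (hj : j < N)
    (x : Fin (e + 2) × Fin (K - 1)) : hardQ K x ∉ (hardBox K N c j).pts := by
  intro h
  obtain ⟨h1, -⟩ := h x.1
  obtain ⟨-, h2⟩ := h (x.1 + 1)
  simp only [hardBox, hardQ, if_true, if_neg (succ_ne x.1), add_sub_cancel_right] at h1 h2
  have h3 : (j : ℝ) / (2 * N + 1) < 1 / 2 := by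
    rw [div_lt_div_iff₀ (by positivity) (by norm_num)]
    have : (j : ℝ) < N := by exact_mod_cast hj
    linarith
  have h4 : ((c x.1 : ℕ) : ℝ) < (x.2 : ℕ) + 1 := by linarith
  have h5 : ((x.2 : ℕ) : ℝ) < (c x.1 : ℕ) := by linarith
  have h4' : (c x.1 : ℕ) < (x.2 : ℕ) + 1 := by exact_mod_cast h4
  have h5' : (x.2 : ℕ) < (c x.1 : ℕ) := by exact_mod_cast h5
  omega

/-- Two objects in different cells are straddled by a query. -/
theorem mem_hard {ι : Type} {S : ι → Box (e + 2)} {c : ι → Fin (e + 2) → Fin K} {f : ι → ℕ}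
    (hS : ∀ i, S i = hardBox K N (c i) (f i)) {X : Finset ι} {a b : ι} (ha : a ∈ X) (hb : b ∈ X)
    {s : Fin (e + 2)} (hab : c a s < c b s) : ∃ x, hardQ K x ∈ bbox S X := by
  have hlt : (c a s : ℕ) < (c b s : ℕ) := hab
  have hbK : (c b s : ℕ) < K := (c b s).2
  refine ⟨(s, ⟨(c a s : ℕ), by omega⟩), fun t => ?_⟩
  have eps : ∀ i : ι, (0 : ℝ) ≤ (f i : ℝ) / (2 * N + 1) := fun i => by positivity
  have low : ∀ (i : ι) (t : Fin (e + 2)), (S i).lo t ≤ 0 := by
    intro i t
    rw [hS]
    simp only [hardBox]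
    have : (0 : ℝ) ≤ (c i t : ℕ) := Nat.cast_nonneg _
    linarith [eps i]
  have upp : ∀ (i : ι) (t : Fin (e + 2)), 0 ≤ (S i).hi t := by
    intro i t
    rw [hS]
    simp only [hardBox]
    have : ((c i (t - 1) : ℕ) : ℝ) < K := by exact_mod_cast (c i (t - 1)).2
    linarith
  have haK : ((c a s : ℕ) : ℝ) + 1 ≤ K := by
    have : (c a s : ℕ) + 1 ≤ K := by omega
    exact_mod_cast this
  by_cases h1 : t = s
  · subst h1
    simp only [hardQ, if_true]
    constructor
    · refine ⟨b, hb, ?_⟩
      rw [hS]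
      simp only [hardBox]
      have : ((c a t : ℕ) : ℝ) + 1 ≤ (c b t : ℕ) := by exact_mod_cast hlt
      linarith [eps b]
    · refine ⟨a, ha, ?_⟩
      have := upp a t
      have : (0 : ℝ) ≤ (c a t : ℕ) := Nat.cast_nonneg _
      linarith
  · by_cases h2 : t = s + 1
    · subst h2
      simp only [hardQ, if_neg (succ_ne s), if_true]
      constructor
      · refine ⟨a, ha, (low a _).trans ?_⟩
        linarith
      · refine ⟨a, ha, ?_⟩
        rw [hS]
        simp only [hardBox, add_sub_cancel_right]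
        linarith
    · simp only [hardQ, if_neg h1, if_neg h2]
      exact ⟨⟨a, ha, low a t⟩, a, ha, upp a t⟩

end Hard

end Pool.Agent.Q331.RT
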